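import Pool.Agent.Helper185.SierpProd
import Pool.Agent.Helper292.ForceCH

/-!
Products and the classes Split(T, T) and (T choose Γ), from the continuum hypothesis.
-/

namespace Pool.Agent.Results.MP_f722f0_gt.ConsistentlyNotProductive

open Pool.Agent.Helper185.Sel

theorem under_ch : Cardinal.aleph 1 = Cardinal.continuum.{0} →
    ∃ A B : Set ℝ,
      (SplitP (TauOf (OpenFam A)) (TauOf (OpenFam A)) ∧
        SplitP (TauOf (OpenFam B)) (TauOf (OpenFam B)) ∧
        ¬ SplitP (TauOf (OpenFam (A × B))) (TauOf (OpenFam (A × B)))) ∧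
      (Choose (TauOf (OpenFam A)) (GammaOf (OpenFam A)) ∧
        Choose (TauOf (OpenFam B)) (GammaOf (OpenFam B)) ∧
        ¬ Choose (TauOf (OpenFam (A × B))) (GammaOf (OpenFam (A × B)))) :=
  Pool.Agent.Helper185.Sierp.products

theorem result :
    (∃ (P : Type) (_ : Preorder P), Nonempty P ∧ ∀ p : P,
      p ∈ Pool.Agent.Helper292.ForceCH.OmegaOnePreserved P ∧
      p ∈ Pool.Agent.Helper292.ForceCH.CHHolds P) ∧
    (Cardinal.aleph 1 = Cardinal.continuum.{0} →
    ∃ A B : Set ℝ,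
      (SplitP (TauOf (OpenFam A)) (TauOf (OpenFam A)) ∧
        SplitP (TauOf (OpenFam B)) (TauOf (OpenFam B)) ∧
        ¬ SplitP (TauOf (OpenFam (A × B))) (TauOf (OpenFam (A × B)))) ∧
      (Choose (TauOf (OpenFam A)) (GammaOf (OpenFam A)) ∧
        Choose (TauOf (OpenFam B)) (GammaOf (OpenFam B)) ∧
        ¬ Choose (TauOf (OpenFam (A × B))) (GammaOf (OpenFam (A × B))))) := by
  refine ⟨?_, under_ch⟩
  obtain ⟨P, i, h1, h2⟩ := Pool.Agent.Helper292.ForceCH.exists_forcing
  exact ⟨P, i, h1, fun p => ⟨(h2 p).1, (h2 p).2.2⟩⟩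

end Pool.Agent.Results.MP_f722f0_gt.ConsistentlyNotProductive
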