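import Pool.Agent.Helper185.SierpProd

/-!
Products and the classes Split(T, T) and (T choose Γ), from the continuum hypothesis.
-/

namespace Pool.Agent.Results.MP_f722f0_gt.ProductsCH

open Pool.Agent.Helper185.Sel

/-- The continuum hypothesis gives sets of reals `A`, `B` that satisfy both Split(T, T) and
(T choose Γ), while their product satisfies neither of them. -/
theorem result : Cardinal.aleph 1 = Cardinal.continuum.{0} →
    ∃ A B : Set ℝ,
      (SplitP (TauOf (OpenFam A)) (TauOf (OpenFam A)) ∧
        SplitP (TauOf (OpenFam B)) (TauOf (OpenFam B)) ∧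
        ¬ SplitP (TauOf (OpenFam (A × B))) (TauOf (OpenFam (A × B)))) ∧
      (Choose (TauOf (OpenFam A)) (GammaOf (OpenFam A)) ∧
        Choose (TauOf (OpenFam B)) (GammaOf (OpenFam B)) ∧
        ¬ Choose (TauOf (OpenFam (A × B))) (GammaOf (OpenFam (A × B)))) :=
  Pool.Agent.Helper185.Sierp.products

end Pool.Agent.Results.MP_f722f0_gt.ProductsCH
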