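import Pool.Agent.Helper185.SierpProd

/-!
If one of the classes Split(T, T) and (T choose Γ) is closed under products of two sets of
reals, then the continuum hypothesis fails.
-/

namespace Pool.Agent.Results.MP_f722f0_gt.ProductsRefuteCH

open Pool.Agent.Helper185.Sel

/-- If Split(T, T) or (T choose Γ) is closed under products of two sets of reals, then the
continuum hypothesis fails. -/
theorem result :
    ((∀ A B : Set ℝ, SplitP (TauOf (OpenFam A)) (TauOf (OpenFam A)) →
        SplitP (TauOf (OpenFam B)) (TauOf (OpenFam B)) →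
        SplitP (TauOf (OpenFam (A × B))) (TauOf (OpenFam (A × B)))) ∨
      (∀ A B : Set ℝ, Choose (TauOf (OpenFam A)) (GammaOf (OpenFam A)) →
        Choose (TauOf (OpenFam B)) (GammaOf (OpenFam B)) →
        Choose (TauOf (OpenFam (A × B))) (GammaOf (OpenFam (A × B))))) →
      Cardinal.aleph 1 ≠ Cardinal.continuum.{0} := by
  intro h hCH
  obtain ⟨A, B, ⟨h1, h2, h3⟩, h4, h5, h6⟩ :=
    Pool.Agent.Helper185.Sierp.products hCH
  rcases h with h | h
  · exact h3 (h A B h1 h2)
  · exact h6 (h A B h4 h5)

end Pool.Agent.Results.MP_f722f0_gt.ProductsRefuteCH
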